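import Mathlib

/-!
# The kernel of a half-homomorphism from a Moufang loop to a loop is a normal subloop

Let `Q` be a Moufang loop, `Q'` an arbitrary loop and `φ : Q → Q'` a map with
`φ (a * b) = φ a * φ b` or `φ (a * b) = φ b * φ a` for all `a b`.  Then the kernel `{a | φ a = 1}` is a
normal subloop of `Q`.

Idea of the proof.  Write `a ~ b` for `φ a = φ b`, `K` for the kernel, and
`θ_{x,y} = L_{xy}⁻¹ L_x L_y`, so that `x (y k) ~ x y` iff `θ_{x,y} k ∈ K`.  In a Moufang loop
`θ_{x,y} = θ_{x,yx} = θ_{xy,y}`, and hence `θ_{x,y} = θ_{y⁻¹, y x y⁻¹}`.  For `k ∈ K`, the assertion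
`(x k) y ~ x y` is equivalent to `x (y (x k⁻¹ x⁻¹)) ~ x y` and to `x (k y k) ~ x y`; by these two
descriptions it does not change along the moves `(x, y) ↦ (x, y x)` and `(x, y) ↦ (x y, y)`, and one gets
`x (k y k) ~ x y ↔ x (k⁻¹ y) ~ x y`.  As products of two classes meet at most two classes, this gives
`x (k y k) ~ x (k⁻¹ y)` and `x (y k²) ~ x y` always, and the two together give `x (y k) ~ x y`.
-/

set_option autoImplicit false

namespace Pool.Agent.Results.MP_d39372_al.KernelNormal

universe u v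

/-- A set with a binary operation and a two-sided identity element in which all equations `a * x = b` and
`y * a = b` have unique solutions. -/
structure IsLoop (Q : Type u) [Mul Q] [One Q] : Prop where
  one_mul : ∀ a : Q, 1 * a = a
  mul_one : ∀ a : Q, a * 1 = a
  left_div : ∀ a b : Q, ∃! x : Q, a * x = b
  right_div : ∀ a b : Q, ∃! y : Q, y * a = b

/-- A loop with the Moufang identity. -/
structure IsMoufangLoop (Q : Type u) [Mul Q] [One Q] : Prop extends IsLoop Q where
  moufang : ∀ x y z : Q, x * (y * (x * z)) = ((x * y) * x) * z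

/-- A map of sets with multiplication which sends each product to one of the two products of the
images. -/
def IsHalfHom {Q : Type u} {Q' : Type v} [Mul Q] [Mul Q'] (φ : Q → Q') : Prop :=
  ∀ a b : Q, φ (a * b) = φ a * φ b ∨ φ (a * b) = φ b * φ a

/-- A subset containing `1`, closed under multiplication and under both divisions. -/
structure IsSubloop {Q : Type u} [Mul Q] [One Q] (K : Set Q) : Prop where
  one_mem : (1 : Q) ∈ K
  mul_mem : ∀ a ∈ K, ∀ b ∈ K, a * b ∈ K
  left_div_mem : ∀ a ∈ K, ∀ b ∈ K, ∀ x : Q, a * x = b → x ∈ K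
  right_div_mem : ∀ a ∈ K, ∀ b ∈ K, ∀ y : Q, y * a = b → y ∈ K

/-- A subloop `K` with `x K = K x`, `x (y K) = (x y) K` and `(K x) y = K (x y)` for all `x y`. -/
structure IsNormalSubloop {Q : Type u} [Mul Q] [One Q] (K : Set Q) : Prop extends IsSubloop K where
  comm : ∀ x : Q, (fun k => x * k) '' K = (fun k => k * x) '' K
  assoc_left : ∀ x y : Q, (fun k => x * (y * k)) '' K = (fun k => (x * y) * k) '' K
  assoc_right : ∀ x y : Q, (fun k => (k * x) * y) '' K = (fun k => k * (x * y)) '' K

section Basic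

variable {Q : Type u} [Mul Q] [One Q]

theorem IsLoop.left_cancel (h : IsLoop Q) {a x y : Q} (e : a * x = a * y) : x = y :=
  (h.left_div a (a * y)).unique e rfl

theorem IsLoop.right_cancel (h : IsLoop Q) {a x y : Q} (e : x * a = y * a) : x = y :=
  (h.right_div a (y * a)).unique e rfl

/-- The consequences of the Moufang identity used below, for a chosen inverse map. -/
structure Facts (Q : Type u) [Mul Q] [One Q] (inv : Q → Q) : Prop where
  one_mul : ∀ a : Q, 1 * a = a
  mul_one : ∀ a : Q, a * 1 = a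
  lip : ∀ x z : Q, inv x * (x * z) = z
  lip' : ∀ x z : Q, x * (inv x * z) = z
  rip : ∀ x z : Q, (z * x) * inv x = z
  rip' : ∀ x z : Q, (z * inv x) * x = z
  inv_inv : ∀ x : Q, inv (inv x) = x
  inv_mul : ∀ x y : Q, inv (x * y) = inv y * inv x
  mul_inv : ∀ x : Q, x * inv x = 1
  flex : ∀ x y : Q, (x * y) * x = x * (y * x)
  lm : ∀ x y z : Q, x * (y * (x * z)) = ((x * y) * x) * z
  rm : ∀ x y z : Q, ((z * x) * y) * x = z * (x * (y * x))
  mm : ∀ x y z : Q, (x * y) * (z * x) = (x * (y * z)) * x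
  lalt : ∀ x z : Q, x * (x * z) = (x * x) * z
  ralt : ∀ x z : Q, (z * x) * x = z * (x * x)

theorem exists_facts (h : IsMoufangLoop Q) : ∃ inv : Q → Q, Facts Q inv := by
  have hl := h.toIsLoop
  choose inv hinv using fun x : Q => (hl.left_div x 1).exists
  have flex : ∀ x y : Q, (x * y) * x = x * (y * x) := by
    intro x y
    have := h.moufang x y 1
    rw [hl.mul_one, hl.mul_one] at this
    exact this.symm
  have lip : ∀ x z : Q, inv x * (x * z) = z := by
    intro x z
    have := h.moufang x (inv x) z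
    rw [hinv, hl.one_mul] at this
    exact hl.left_cancel this
  have inv_left : ∀ x : Q, inv x * x = 1 := by
    intro x
    have := lip x 1
    rwa [hl.mul_one] at this
  have inv_inv : ∀ x : Q, inv (inv x) = x := by
    intro x
    exact hl.left_cancel (a := inv x) (by rw [hinv, inv_left])
  have lip' : ∀ x z : Q, x * (inv x * z) = z := by
    intro x z
    have := lip (inv x) z
    rwa [inv_inv] at this
  have rip : ∀ x z : Q, (z * x) * inv x = z := by
    intro x z
    have := h.moufang x (inv x * z) (inv x)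
    rw [hinv, hl.mul_one, lip'] at this
    exact this.symm
  have rip' : ∀ x z : Q, (z * inv x) * x = z := by
    intro x z
    have := rip (inv x) z
    rwa [inv_inv] at this
  have inv_mul : ∀ x y : Q, inv (x * y) = inv y * inv x := by
    intro x y
    have h1 : inv x = y * inv (x * y) := by
      have := rip (x * y) (inv x)
      rw [lip] at this
      exact this.symm
    rw [h1, lip]
  have lm := h.moufang
  have rm : ∀ x y z : Q, ((z * x) * y) * x = z * (x * (y * x)) := by
    intro x y z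
    have := congrArg inv (lm (inv x) (inv y) (inv z))
    simp only [inv_mul, inv_inv] at this
    exact this
  have mm : ∀ x y z : Q, (x * y) * (z * x) = (x * (y * z)) * x := by
    intro x y z
    have h1 := lm x (y * z) (inv x * inv z)
    rw [lip', rip] at h1
    have h2 : inv x * inv z = inv (z * x) := (inv_mul z x).symm
    rw [h2] at h1
    rw [h1, rip']
  refine ⟨inv, ⟨hl.one_mul, hl.mul_one, lip, lip', rip, rip', inv_inv, inv_mul, hinv, flex, lm, rm, mm,
    ?_, ?_⟩⟩
  · intro x z
    have := lm x 1 z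
    rwa [hl.one_mul, hl.mul_one] at this
  · intro x z
    have := rm x 1 z
    rwa [hl.mul_one, hl.one_mul] at this

end Basic

section Theta

variable {Q : Type u} [Mul Q] [One Q] {inv : Q → Q}

/-- `θ_{x,y}` preserves inverses. -/
theorem Facts.theta_inv (F : Facts Q inv) {x y k m : Q} (e : x * (y * k) = (x * y) * m) :
    x * (y * inv k) = (x * y) * inv m := by
  have h1 : (inv k * inv y) * inv x = inv m * inv (x * y) := by
    have := congrArg inv e
    rwa [F.inv_mul, F.inv_mul, F.inv_mul (x * y) m] at this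
  have h2 : (x * y) * inv m = ((x * y) * (inv m * inv (x * y))) * (x * y) := by
    rw [F.flex, F.rip']
  have h3 := F.mm (x * y) (inv k * inv y) (inv x)
  rw [F.lip] at h3
  rw [h2, ← h1, ← h3, F.rm, F.rip']

/-- `θ_{y,x}` is the inverse of `θ_{x,y}`. -/
theorem Facts.theta_swap (F : Facts Q inv) {x y k m : Q} (e : x * (y * k) = (x * y) * m) :
    y * (x * m) = (y * x) * k := by
  have h1 : (k * inv y) * inv x = m * inv (x * y) := by
    have := congrArg inv (F.theta_inv e)
    rwa [F.inv_mul, F.inv_mul, F.inv_mul (x * y) (inv m), F.inv_inv, F.inv_inv] at this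
  set q := (k * inv y) * inv x with hq
  have hp : k * inv y = q * x := by rw [hq, F.rip']
  have hm : m = q * (x * y) := by rw [h1, F.rip']
  have hk : k = (q * x) * y := by rw [← hp, F.rip']
  have h2 : x * m = (x * (q * x)) * y := by
    rw [hm, F.lm, F.flex]
  rw [h2, hk, F.mm, F.flex]

theorem Facts.theta_U (F : Facts Q inv) {x y k m : Q} (e : x * (y * k) = (x * y) * m) :
    x * ((y * x) * k) = (x * (y * x)) * m := by
  rw [← F.theta_swap e, F.lm, F.flex]

theorem Facts.theta_V (F : Facts Q inv) {x y k m : Q} (e : x * (y * k) = (x * y) * m) :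
    (x * y) * (y * k) = ((x * y) * y) * m :=
  F.theta_swap (F.theta_U (F.theta_swap e))

end Theta

section Main

set_option linter.unusedSectionVars false

variable {Q : Type u} {Q' : Type v} [Mul Q] [One Q] [Mul Q'] [One Q'] {inv : Q → Q} {φ : Q → Q'}

theorem map_one (hQ : IsLoop Q) (hQ' : IsLoop Q') (hφ : IsHalfHom φ) : φ 1 = 1 := by
  have h : φ 1 = φ 1 * φ 1 := by
    have := hφ 1 1
    rw [hQ.one_mul, or_self] at this
    exact this
  exact (hQ'.left_cancel (a := φ 1) (by rw [hQ'.mul_one, ← h])).symm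

theorem map_mul_right (hQ' : IsLoop Q') (hφ : IsHalfHom φ) {k : Q} (hk : φ k = 1) (a : Q) :
    φ (a * k) = φ a := by
  rcases hφ a k with h | h <;> rw [h, hk]
  · exact hQ'.mul_one _
  · exact hQ'.one_mul _

theorem map_mul_left (hQ' : IsLoop Q') (hφ : IsHalfHom φ) {k : Q} (hk : φ k = 1) (a : Q) :
    φ (k * a) = φ a := by
  rcases hφ k a with h | h <;> rw [h, hk]
  · exact hQ'.one_mul _
  · exact hQ'.mul_one _

theorem ker_of_mul_right (hQ' : IsLoop Q') (hφ : IsHalfHom φ) {a k : Q} (h : φ (a * k) = φ a) :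
    φ k = 1 := by
  rcases hφ a k with h' | h'
  · exact hQ'.left_cancel (a := φ a) (by rw [← h', h, hQ'.mul_one])
  · exact hQ'.right_cancel (a := φ a) (by rw [← h', h, hQ'.one_mul])

theorem ker_of_mul_left (hQ' : IsLoop Q') (hφ : IsHalfHom φ) {a k : Q} (h : φ (k * a) = φ a) :
    φ k = 1 := by
  rcases hφ k a with h' | h'
  · exact hQ'.right_cancel (a := φ a) (by rw [← h', h, hQ'.one_mul])
  · exact hQ'.left_cancel (a := φ a) (by rw [← h', h, hQ'.mul_one])

/-- Among three products `x * b` with `b` in one class two are equivalent. -/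
theorem two_valued (hφ : IsHalfHom φ) {x b b' b'' : Q} (h' : φ b = φ b') (h'' : φ b = φ b'') :
    φ (x * b) = φ (x * b') ∨ φ (x * b) = φ (x * b'') ∨ φ (x * b') = φ (x * b'') := by
  rcases hφ x b with h1 | h1 <;> rcases hφ x b' with h2 | h2 <;> rcases hφ x b'' with h3 | h3 <;>
    rw [h1, h2, h3, ← h', ← h''] <;> simp

variable (F : Facts Q inv) (hQ' : IsLoop Q') (hφ : IsHalfHom φ)
include F hQ' hφ

theorem ker_inv (hone : φ 1 = 1) {k : Q} (hk : φ k = 1) : φ (inv k) = 1 := by
  apply ker_of_mul_left hQ' hφ (a := k)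
  have : inv k * k = 1 := by
    have := F.lip k 1
    rwa [F.mul_one] at this
  rw [this, hone, hk]

/-- The relation `x (y k) ~ x y` depends only on `θ_{x,y}`. -/
theorem rel_iff {x y k m : Q} (e : x * (y * k) = (x * y) * m) :
    φ (x * (y * k)) = φ (x * y) ↔ φ m = 1 := by
  constructor
  · intro h
    rw [e] at h
    exact ker_of_mul_right hQ' hφ h
  · intro h
    rw [e]
    exact map_mul_right hQ' hφ h _

theorem rel_U (x y k : Q) :
    φ (x * ((y * x) * k)) = φ (x * (y * x)) ↔ φ (x * (y * k)) = φ (x * y) := by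
  have e : x * (y * k) = (x * y) * (inv (x * y) * (x * (y * k))) := (F.lip' _ _).symm
  rw [rel_iff F hQ' hφ e, rel_iff F hQ' hφ (F.theta_U e)]

theorem rel_V (x y k : Q) :
    φ ((x * y) * (y * k)) = φ ((x * y) * y) ↔ φ (x * (y * k)) = φ (x * y) := by
  have e : x * (y * k) = (x * y) * (inv (x * y) * (x * (y * k))) := (F.lip' _ _).symm
  rw [rel_iff F hQ' hφ e, rel_iff F hQ' hφ (F.theta_V e)]

theorem rel_inv (hone : φ 1 = 1) {x y k : Q} (h : φ (x * (y * k)) = φ (x * y)) :
    φ (x * (y * inv k)) = φ (x * y) := by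
  have e : x * (y * k) = (x * y) * (inv (x * y) * (x * (y * k))) := (F.lip' _ _).symm
  rw [rel_iff F hQ' hφ e] at h
  rw [rel_iff F hQ' hφ (F.theta_inv e)]
  exact ker_inv F hQ' hφ hone h

/-- `(k a) (b k) ~ a b` for `k` in the kernel. -/
theorem rel_mm {a b k : Q} (hk : φ k = 1) : φ ((k * a) * (b * k)) = φ (a * b) := by
  rw [F.mm, map_mul_right hQ' hφ hk, map_mul_left hQ' hφ hk]

/-- First description of `(x k) y ~ x y`. -/
theorem rel_D1 {x y k : Q} (hk : φ k = 1) :
    φ ((x * k) * y) = φ (x * (y * inv ((x * k) * inv x))) := by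
  have hnx : ((x * k) * inv x) * x = x * k := F.rip' _ _
  have hnK : φ ((x * k) * inv x) = 1 := by
    apply ker_of_mul_left hQ' hφ (a := x)
    rw [hnx, map_mul_right hQ' hφ hk]
  have := rel_mm F hQ' hφ (a := x) (b := y * inv ((x * k) * inv x)) hnK
  rw [hnx, F.rip'] at this
  exact this

/-- Second description of `(x k) y ~ x y`. -/
theorem rel_D2 {x y k : Q} (hk : φ k = 1) :
    φ ((x * k) * y) = φ (x * (k * (y * k))) := by
  rw [← F.rm, map_mul_right hQ' hφ hk]

theorem r_U (x y : Q) {k : Q} (hk : φ k = 1) :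
    φ ((x * k) * (y * x)) = φ (x * (y * x)) ↔ φ ((x * k) * y) = φ (x * y) := by
  rw [rel_D1 F hQ' hφ hk, rel_D1 F hQ' hφ hk, rel_U F hQ' hφ]

theorem r_V (x y : Q) {k : Q} (hk : φ k = 1) :
    φ (((x * y) * k) * y) = φ ((x * y) * y) ↔ φ ((x * k) * y) = φ (x * y) := by
  rw [rel_D2 F hQ' hφ hk, rel_D2 F hQ' hφ hk]
  have e : k * (y * k) = y * (inv y * (k * (y * k))) := (F.lip' _ _).symm
  rw [e, rel_V F hQ' hφ]

/-- The orbit argument: `x (k y k) ~ x y` iff `x (k⁻¹ y) ~ x y`. -/
theorem key_iff (x y : Q) {k : Q} (hk : φ k = 1) :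
    φ (x * (k * (y * k))) = φ (x * y) ↔ φ (x * (inv k * y)) = φ (x * y) := by
  have hxy : (x * inv y) * y = x := F.rip' _ _
  -- from `(x, y)` to `(x y⁻¹, y)`
  have h1 := rel_V F hQ' hφ (x * inv y) y
  have r1 := r_V F hQ' hφ (x * inv y) y hk
  -- from `(x y⁻¹, y)` to `(x y⁻¹, y (x y⁻¹))`
  have h2 := rel_U F hQ' hφ (x * inv y) y
  have r2 := r_U F hQ' hφ (x * inv y) y hk
  -- from `(x y⁻¹, y (x y⁻¹))` to `(y⁻¹, y (x y⁻¹))`
  have hyy : inv y * (y * (x * inv y)) = x * inv y := F.lip _ _
  have h3 := rel_V F hQ' hφ (inv y) (y * (x * inv y))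
  have r3 := r_V F hQ' hφ (inv y) (y * (x * inv y)) hk
  have rall : φ ((x * k) * y) = φ (x * y) ↔
      φ ((inv y * k) * (y * (x * inv y))) = φ (inv y * (y * (x * inv y))) := by
    rw [hyy] at r3 ⊢
    rw [← r3, r2, ← r1, hxy]
  have hall : ∀ q : Q, φ (x * (y * q)) = φ (x * y) ↔
      φ (inv y * ((y * (x * inv y)) * q)) = φ (inv y * (y * (x * inv y))) := by
    intro q
    have h3' := h3 q
    rw [hyy] at h3' ⊢
    rw [← h3', h2 q, ← h1 q, hxy]
  rw [← rel_D2 F hQ' hφ hk, rall, rel_D1 F hQ' hφ hk, ← hall]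
  have : y * inv ((inv y * k) * inv (inv y)) = inv k * y := by
    rw [F.inv_mul, F.inv_mul, F.inv_inv, F.inv_inv, F.lip']
  rw [this]

theorem key (hone : φ 1 = 1) (x y : Q) {k : Q} (hk : φ k = 1) :
    φ (x * (k * (y * k))) = φ (x * (inv k * y)) := by
  have hk' : φ (inv k) = 1 := ker_inv F hQ' hφ hone hk
  have e1 : φ y = φ (k * (y * k)) := by
    rw [map_mul_left hQ' hφ hk, map_mul_right hQ' hφ hk]
  have e2 : φ y = φ (inv k * y) := by rw [map_mul_left hQ' hφ hk']
  have hiff := key_iff F hQ' hφ x y hk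
  rcases two_valued hφ (x := x) e1 e2 with h | h | h
  · rw [← h, hiff.1 h.symm]
  · rw [← h, hiff.2 h.symm]
  · exact h

theorem rel_inv_left (hone : φ 1 = 1) {x y k : Q} (h : φ (x * (k * y)) = φ (x * y)) :
    φ (x * (inv k * y)) = φ (x * y) := by
  have e : k * y = y * (inv y * (k * y)) := (F.lip' _ _).symm
  rw [e] at h
  have h2 := rel_inv F hQ' hφ hone h
  have e2 : y * inv (inv y * (k * y)) = inv k * y := by
    rw [F.inv_mul, F.inv_mul, F.inv_inv, ← F.flex, F.lip']
  rwa [e2] at h2

theorem square_left (hone : φ 1 = 1) (x b : Q) {k : Q} (hk : φ k = 1) :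
    φ (x * ((k * k) * b)) = φ (x * b) := by
  have step : φ (x * (k * (k * b))) = φ (x * (k * b)) → φ (x * b) = φ (x * (k * b)) := by
    intro h
    have := rel_inv_left F hQ' hφ hone h
    rwa [F.lip] at this
  have step' : φ (x * b) = φ (x * (k * b)) → φ (x * (k * (k * b))) = φ (x * (k * b)) := by
    intro h
    have h' : φ (x * (inv k * (k * b))) = φ (x * (k * b)) := by rw [F.lip, h]
    have := rel_inv_left F hQ' hφ hone h'
    rwa [F.inv_inv] at this
  rw [← F.lalt]
  have e1 : φ b = φ (k * b) := by rw [map_mul_left hQ' hφ hk]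
  have e2 : φ b = φ (k * (k * b)) := by rw [map_mul_left hQ' hφ hk, map_mul_left hQ' hφ hk]
  rcases two_valued hφ (x := x) e1 e2 with h | h | h
  · rw [step' h, h]
  · exact h.symm
  · rw [step h.symm, h]

theorem main (hone : φ 1 = 1) (x b : Q) {k : Q} (hk : φ k = 1) :
    φ (x * (b * k)) = φ (x * b) := by
  -- `x (k² b k) ~ x b`
  have h1 := key F hQ' hφ hone x (k * b) hk
  rw [F.lip, F.flex, F.lalt, square_left F hQ' hφ hone x (b * k) hk] at h1
  exact h1

/-- The kernel of a half-homomorphism from a Moufang loop to a loop is a normal subloop. -/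
theorem normal (hone : φ 1 = 1) : IsNormalSubloop {a : Q | φ a = 1} where
  one_mem := hone
  mul_mem := by
    intro a ha b hb
    change φ (a * b) = 1
    rw [map_mul_right hQ' hφ hb]
    exact ha
  left_div_mem := by
    intro a ha b hb x e
    change φ a = 1 at ha
    change φ b = 1 at hb
    change φ x = 1
    rw [← map_mul_left hQ' hφ ha x, e, hb]
  right_div_mem := by
    intro a ha b hb y e
    change φ a = 1 at ha
    change φ b = 1 at hb
    change φ y = 1
    rw [← map_mul_right hQ' hφ ha y, e, hb]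
  comm := by
    intro x
    ext z
    constructor
    · rintro ⟨k, hk, rfl⟩
      change φ k = 1 at hk
      refine ⟨(x * k) * inv x, ?_, F.rip' _ _⟩
      apply ker_of_mul_left hQ' hφ (a := x)
      rw [F.rip', map_mul_right hQ' hφ hk]
    · rintro ⟨k, hk, rfl⟩
      change φ k = 1 at hk
      refine ⟨inv x * (k * x), ?_, F.lip' _ _⟩
      apply ker_of_mul_right hQ' hφ (a := x)
      rw [F.lip', map_mul_left hQ' hφ hk]
  assoc_left := by
    intro x y
    ext z
    constructor
    · rintro ⟨k, hk, rfl⟩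
      change φ k = 1 at hk
      refine ⟨inv (x * y) * (x * (y * k)), ?_, F.lip' _ _⟩
      apply ker_of_mul_right hQ' hφ (a := x * y)
      rw [F.lip', main F hQ' hφ hone x y hk]
    · rintro ⟨k, hk, rfl⟩
      change φ k = 1 at hk
      refine ⟨inv y * (inv x * ((x * y) * k)), ?_, ?_⟩
      · apply ker_of_mul_right hQ' hφ (a := y)
        rw [F.lip', main F hQ' hφ hone (inv x) (x * y) hk, F.lip]
      · change x * (y * (inv y * (inv x * ((x * y) * k)))) = (x * y) * k
        rw [F.lip', F.lip']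
  assoc_right := by
    intro x y
    have key2 : ∀ (x y k : Q), φ k = 1 → φ ((k * x) * y) = φ (x * y) := by
      intro x y k hk
      have h1 := rel_mm F hQ' hφ (a := x) (b := y * inv k) hk
      rw [F.rip'] at h1
      rw [h1, main F hQ' hφ hone x y (ker_inv F hQ' hφ hone hk)]
    ext z
    constructor
    · rintro ⟨k, hk, rfl⟩
      change φ k = 1 at hk
      refine ⟨((k * x) * y) * inv (x * y), ?_, F.rip' _ _⟩
      apply ker_of_mul_left hQ' hφ (a := x * y)
      rw [F.rip', key2 x y k hk]
    · rintro ⟨k, hk, rfl⟩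
      change φ k = 1 at hk
      refine ⟨((k * (x * y)) * inv y) * inv x, ?_, ?_⟩
      · apply ker_of_mul_left hQ' hφ (a := x)
        rw [F.rip', key2 (x * y) (inv y) k hk, F.rip]
      · change ((((k * (x * y)) * inv y) * inv x) * x) * y = k * (x * y)
        rw [F.rip', F.rip']

end Main

/-- **The kernel of a half-homomorphism from a Moufang loop into an arbitrary loop is a normal
subloop.** -/
theorem result {Q : Type u} {Q' : Type v} [Mul Q] [One Q] [Mul Q'] [One Q']
    (hQ : IsMoufangLoop Q) (hQ' : IsLoop Q') (φ : Q → Q') (hφ : IsHalfHom φ) :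
    IsNormalSubloop {a : Q | φ a = 1} := by
  obtain ⟨inv, F⟩ := exists_facts hQ
  exact normal F hQ' hφ (map_one hQ.toIsLoop hQ' hφ)

end Pool.Agent.Results.MP_d39372_al.KernelNormal
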